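import Pool.Agent.Lib.MP_8b3f09_an_SR.Space

/-!
The unit vectors form a `k`-unconditional basis of the space normed by the family.
-/

set_option autoImplicit false

namespace Pool.Agent.Lib.MP_8b3f09_an.SR

open Filter Topology

variable {k : ℝ} {X : Type} [NormedAddCommGroup X] [NormedSpace ℝ X] {e : ℕ → X}
  {ev : (ℕ → ℝ) → X →L[ℝ] ℝ}

theorem Mod.ev_sum (M : Mod k e ev) {w : ℕ → ℝ} (h : WW k w) (A : Finset ℕ) (a : ℕ → ℝ) :
    ev w (∑ n ∈ A, a n • e n) = ∑ n ∈ A, a n * w n := by
  rw [map_sum]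
  exact Finset.sum_congr rfl fun n _ => by rw [map_smul, M.ev_e w h, smul_eq_mul]

theorem Mod.ev_fin (M : Mod k e ev) {w : ℕ → ℝ} (h : WW k w) (A : Finset ℕ)
    (hA : ∀ n, n ∉ A → w n = 0) (x : X) :
    ev w x = ∑ n ∈ A, ev (Pi.single n 1) x * w n := by
  have : ev w = ∑ n ∈ A, w n • ev (Pi.single n 1) := by
    refine ContinuousLinearMap.ext_on M.dense ?_
    rintro _ ⟨m, rfl⟩
    rw [M.ev_e w h, _root_.sum_apply]
    have h1 : ∀ n ∈ A, (w n • ev (Pi.single n 1)) (e m) = if m = n then w n else 0 := by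
      intro n _
      rw [_root_.smul_apply, M.ev_e _ (WW.single n)]
      by_cases hm : m = n <;> simp [hm]
    rw [Finset.sum_congr rfl h1, Finset.sum_ite_eq]
    split_ifs with hm
    · rfl
    · exact hA m hm
  rw [this, _root_.sum_apply]
  exact Finset.sum_congr rfl fun n _ => by rw [_root_.smul_apply, smul_eq_mul, mul_comm]

theorem Mod.proj_le (M : Mod k e ev) (A : Finset ℕ) (x : X) :
    ‖∑ n ∈ A, ev (Pi.single n 1) x • e n‖ ≤ ‖x‖ := by
  refine M.norm_le _ _ (norm_nonneg x) fun w h => ?_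
  have h1 := WW.shrink w (fun n => if n ∈ A then 1 else 0) h (fun n => by split_ifs <;> simp)
  have h2 := M.le _ h1 x
  rw [M.ev_fin h1 A (fun n hn => by simp [hn])] at h2
  rw [M.ev_sum h]
  rwa [Finset.sum_congr rfl fun n hn => by rw [if_pos hn, one_mul]] at h2

theorem Mod.mult_le (M : Mod k e ev) (hk : 1 ≤ k) (A : Finset ℕ) {θ : ℕ → ℝ}
    (hθ : ∀ n, |θ n| ≤ 1) (x : X) :
    ‖∑ n ∈ A, (θ n * ev (Pi.single n 1) x) • e n‖ ≤ k * ‖x‖ := by
  have hk0 : 0 < k := by linarith
  refine M.norm_le _ _ (by positivity) fun w h => ?_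
  have h1 := WW.flip w (fun n => if n ∈ A then θ n else 0) h (fun n => by
    split_ifs
    · exact hθ n
    · simp)
  have h2 := M.le _ h1 x
  rw [M.ev_fin h1 A (fun n hn => by simp [hn])] at h2
  rw [M.ev_sum h]
  have h3 : ∑ n ∈ A, θ n * ev (Pi.single n 1) x * w n
      = k * ∑ n ∈ A, ev (Pi.single n 1) x * ((if n ∈ A then θ n else 0) * w n / k) := by
    rw [Finset.mul_sum]
    refine Finset.sum_congr rfl fun n hn => ?_
    rw [if_pos hn]
    field_simp
  rw [h3, abs_mul, abs_of_pos hk0]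
  exact mul_le_mul_of_nonneg_left h2 hk0.le

theorem Mod.hasSum (M : Mod k e ev) (x : X) :
    HasSum (fun n => ev (Pi.single n 1) x • e n) x := by
  have h0 : ∀ y ∈ Submodule.span ℝ (Set.range e),
      HasSum (fun n => ev (Pi.single n 1) y • e n) y := by
    intro y hy
    induction hy using Submodule.span_induction with
    | mem y hy =>
      obtain ⟨m, rfl⟩ := hy
      have := hasSum_single (f := fun n => ev (Pi.single n 1) (e m) • e n) m (fun n hn => by
        rw [M.ev_e _ (WW.single n), Pi.single_eq_of_ne (Ne.symm hn), zero_smul])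
      rwa [M.ev_e _ (WW.single m), Pi.single_eq_same, one_smul] at this
    | zero => simp
    | add y z _ _ hy hz => simpa [add_smul] using hy.add hz
    | smul c y _ hy => simpa [mul_smul] using hy.const_smul c
  have key : Tendsto (fun A : Finset ℕ => ∑ n ∈ A, ev (Pi.single n 1) x • e n) atTop (𝓝 x) := by
    rw [Metric.tendsto_nhds]
    intro ε hε
    obtain ⟨y, hy, hxy⟩ := M.dense.exists_dist_lt x (show 0 < ε / 3 by positivity)
    have h1 : Tendsto (fun A : Finset ℕ => ∑ n ∈ A, ev (Pi.single n 1) y • e n) atTop (𝓝 y) :=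
      h0 y hy
    filter_upwards [Metric.tendsto_nhds.1 h1 (ε / 3) (by positivity)] with A hA
    have h2 := M.proj_le A (x - y)
    simp only [map_sub, sub_smul, Finset.sum_sub_distrib] at h2
    rw [← dist_eq_norm, ← dist_eq_norm] at h2
    have h3 := dist_triangle4 (∑ n ∈ A, ev (Pi.single n 1) x • e n)
      (∑ n ∈ A, ev (Pi.single n 1) y • e n) y x
    rw [dist_comm y x] at h3
    linarith
  exact key

theorem Mod.coeff_eq (M : Mod k e ev) {a : ℕ → ℝ} {y : X}
    (h : Tendsto (fun N => ∑ n ∈ Finset.range N, a n • e n) atTop (𝓝 y)) :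
    a = fun n => ev (Pi.single n 1) y := by
  funext m
  refine tendsto_nhds_unique ?_ (((ev (Pi.single m 1)).continuous.tendsto y).comp h)
  refine tendsto_const_nhds.congr' ?_
  filter_upwards [eventually_gt_atTop m] with N hN
  rw [Function.comp_apply, M.ev_sum (WW.single m), Finset.sum_eq_single m]
  · simp
  · intro b _ hb
    rw [Pi.single_eq_of_ne hb, mul_zero]
  · intro hm
    exact absurd (Finset.mem_range.2 hN) hm

theorem Mod.basis (M : Mod k e ev) (hk : 1 ≤ k) : IsKUncondBasis ℝ k e := by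
  refine ⟨⟨fun y => ⟨_, (M.hasSum y).tendsto_sum_nat, fun a ha => M.coeff_eq ha⟩,
    fun a y ha => ?_⟩, fun a θ x y hθ ha hy => ?_⟩
  · rw [M.coeff_eq ha]
    exact (M.hasSum y).summable
  · refine le_of_tendsto' hy.norm fun N => ?_
    rw [M.coeff_eq ha]
    exact M.mult_le hk _ hθ x

end Pool.Agent.Lib.MP_8b3f09_an.SR
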