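import Pool.Agent.Lib.MP_8b3f09_an.Sub

/-!
For a `k`-unconditional basis every point of norm at most `max (2 - k) 0` is an SCD point of the
unit ball.
-/

set_option autoImplicit false

namespace Pool.Agent.Lib.MP_8b3f09_an

open Filter Topology

/-- `e` is a `k`-unconditional basis: an unconditional basis with
`‖∑ θ n * a n • e n‖ ≤ k * ‖∑ a n • e n‖` for all scalars with `‖θ n‖ ≤ 1`. -/
def IsKUncondBasis (𝕜 : Type*) {Y : Type*} [RCLike 𝕜] [NormedAddCommGroup Y] [NormedSpace 𝕜 Y]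
    (k : ℝ) (e : ℕ → Y) : Prop :=
  IsUncondBasis 𝕜 e ∧ ∀ (a θ : ℕ → 𝕜) (x y : Y), (∀ n, ‖θ n‖ ≤ 1) →
    Tendsto (fun N => ∑ n ∈ Finset.range N, a n • e n) atTop (𝓝 x) →
    Tendsto (fun N => ∑ n ∈ Finset.range N, (θ n * a n) • e n) atTop (𝓝 y) → ‖y‖ ≤ k * ‖x‖

namespace SR

variable {𝕜 X : Type*} [RCLike 𝕜] [NormedAddCommGroup X] [NormedSpace 𝕜 X]

theorem scd_of_dual [NormedSpace ℝ X] [IsScalarTower ℝ 𝕜 X] [Nontrivial X]
    {V : Submodule 𝕜 (X →L[𝕜] 𝕜)} (hV : TopologicalSpace.IsSeparable (V : Set (X →L[𝕜] 𝕜)))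
    {x : X} (hx : ‖x‖ ≤ 1)
    (H : ∀ (g : X →L[𝕜] 𝕜) (δ : ℝ), RCLike.re (g x) < δ → ¬ ∀ h ∈ V, δ + ‖h‖ ≤ ‖g + h‖) :
    IsSCDPoint 𝕜 (Metric.closedBall (0 : X) 1) x := by
  classical
  obtain ⟨x0, hx0⟩ := exists_ne (0 : X)
  obtain ⟨c, hc, -⟩ := exists_dual_vector 𝕜 x0 (norm_ne_zero_iff.2 hx0)
  obtain ⟨D, hDc, hD⟩ := hV
  obtain ⟨d, rfl⟩ := hDc.exists_eq_range (closure_nonempty_iff.1 ⟨_, hD V.zero_mem⟩)
  refine ⟨by simpa using hx, fun n => if d (Nat.unpair n).1 = 0 then c else d (Nat.unpair n).1,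
    fun n => 1 / (((Nat.unpair n).2 : ℝ) + 1), fun n => ⟨?_, by positivity⟩, fun y hy => ?_⟩
  · beta_reduce
    split_ifs with h
    · exact norm_ne_zero_iff.1 (hc ▸ one_ne_zero)
    · exact h
  by_contra hnot
  obtain ⟨g, δ, hδ, hg⟩ := RCLike.geometric_hahn_banach_point_closed (𝕜 := 𝕜)
    (convex_convexHull ℝ (Set.range y)).closure isClosed_closure hnot
  refine H g δ hδ fun h hh => le_of_forall_pos_le_add fun ε hε => ?_
  obtain ⟨_, ⟨i, rfl⟩, hi⟩ := Metric.mem_closure_iff.1 (hD hh) (ε / 3) (by positivity)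
  obtain ⟨m, hm⟩ := exists_nat_one_div_lt (show 0 < ε / 3 by positivity)
  obtain ⟨hy1, hy2⟩ := hy (Nat.pair i m)
  have h5 := hg _ (subset_closure (subset_convexHull ℝ _ ⟨Nat.pair i m, rfl⟩))
  simp only [Nat.unpair_pair] at hy2
  generalize y (Nat.pair i m) = z at hy1 hy2 h5
  have hz : ‖z‖ ≤ 1 := by simpa using hy1
  have h1 : ‖d i‖ - ε / 3 < RCLike.re (d i z) := by
    split_ifs at hy2 with h0
    · rw [h0]
      simpa using hε
    · linarith [norm_le_sSup (d i)]
  rw [dist_comm, dist_eq_norm] at hi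
  have h2 := (RCLike.re_le_norm _).trans ((d i - h).unit_le_opNorm z hz)
  have h3 := norm_sub_norm_le h (d i)
  have h4 := (RCLike.re_le_norm _).trans ((g + h).unit_le_opNorm z hz)
  rw [_root_.sub_apply, map_sub] at h2
  rw [_root_.add_apply, map_add] at h4
  rw [norm_sub_rev] at h3
  linarith

theorem nontrivial_of_basis {e : ℕ → X} (he : IsUncondBasis 𝕜 e) : Nontrivial X := by
  by_contra hn
  rw [not_nontrivial_iff_subsingleton] at hn
  obtain ⟨a, -, ha⟩ := he.1 0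
  have h : ∀ b : ℕ → 𝕜, b = a := fun b => ha b (by
    have : (fun N => ∑ n ∈ Finset.range N, b n • e n) = fun _ => 0 :=
      funext fun _ => Subsingleton.elim _ _
    beta_reduce
    rw [this]
    exact tendsto_const_nhds)
  have := congrFun ((h 0).trans (h 1).symm) 0
  simp at this

theorem lower [NormedSpace ℝ X] [IsScalarTower ℝ 𝕜 X] [CompleteSpace X] {k : ℝ} (hk : 1 ≤ k)
    {e : ℕ → X} (he : IsKUncondBasis 𝕜 k e) {x : X} (hx : ‖x‖ ≤ max (2 - k) 0) :
    IsSCDPoint 𝕜 (Metric.closedBall (0 : X) 1) x := by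
  classical
  have := nontrivial_of_basis he.1
  rcases le_total k 2 with h2 | h2
  · rw [max_eq_left (by linarith)] at hx
    obtain ⟨c, K, h1, -⟩ := exists_coord' e he.1.hasSum
    refine scd_of_dual (V := Submodule.span 𝕜 (Set.range c))
      (Set.countable_range _).isSeparable.span (by linarith) fun g u hu hg => ?_
    let P : Finset ℕ → X →L[𝕜] 𝕜 := fun A => ∑ n ∈ A, g (e n) • c n
    have hP : ∀ A z, P A z = g (∑ n ∈ A, c n z • e n) := by
      intro A z
      simp [P, map_sum, mul_comm]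
    have hPmem : ∀ A, P A ∈ Submodule.span 𝕜 (Set.range c) := fun A =>
      Submodule.sum_mem _ fun n _ => Submodule.smul_mem _ _ (Submodule.subset_span ⟨n, rfl⟩)
    have hb : ∀ A, ‖g + -((2 : 𝕜) • P A)‖ ≤ k * ‖g‖ := by
      intro A
      refine ContinuousLinearMap.opNorm_le_bound _ (by positivity) fun z => ?_
      have e1 : (g + -((2 : 𝕜) • P A)) z = g (z - (2 : 𝕜) • ∑ n ∈ A, c n z • e n) := by
        rw [map_sub, map_smul, ← hP, sub_eq_add_neg]; rfl
      have e2 : HasSum (fun n => if n ∈ A then (2 : 𝕜) • c n z • e n else 0)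
          ((2 : 𝕜) • ∑ n ∈ A, c n z • e n) := by
        have := hasSum_sum_of_ne_finset_zero (L := SummationFilter.unconditional ℕ) (s := A)
          (f := fun n => if n ∈ A then (2 : 𝕜) • c n z • e n else 0) (fun b hb => if_neg hb)
        rwa [Finset.sum_congr rfl fun n hn => if_pos hn, ← Finset.smul_sum] at this
      have e3 : HasSum (fun n => ((if n ∈ A then (-1 : 𝕜) else 1) * c n z) • e n)
          (z - (2 : 𝕜) • ∑ n ∈ A, c n z • e n) := by
        have e4 : (fun n => ((if n ∈ A then (-1 : 𝕜) else 1) * c n z) • e n)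
            = fun n => c n z • e n - if n ∈ A then (2 : 𝕜) • c n z • e n else 0 := by
          funext n
          split_ifs
          · rw [two_smul]; simp
          · simp
        rw [e4]
        exact (h1 z).sub e2
      have e5 := he.2 (fun n => c n z) (fun n => if n ∈ A then (-1 : 𝕜) else 1) z _
        (fun n => by split_ifs <;> simp) (h1 z).tendsto_sum_nat e3.tendsto_sum_nat
      rw [e1]
      calc _ ≤ ‖g‖ * ‖z - (2 : 𝕜) • ∑ n ∈ A, c n z • e n‖ := g.le_opNorm _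
        _ ≤ ‖g‖ * (k * ‖z‖) := by gcongr
        _ = _ := by ring
    have hlow : ∀ A, ‖P A‖ ≤ (k * ‖g‖ - u) / 2 := by
      intro A
      have h3 := hg _ (Submodule.neg_mem _ (Submodule.smul_mem _ (2 : 𝕜) (hPmem A)))
      rw [norm_neg, norm_smul, RCLike.norm_two] at h3
      linarith [hb A]
    have h4 : ‖g‖ ≤ (k * ‖g‖ - u) / 2 := by
      refine ContinuousLinearMap.opNorm_le_bound _ ((norm_nonneg _).trans (hlow ∅)) fun z => ?_
      have h5 : Tendsto (fun B : Finset ℕ => ∑ n ∈ B, c n z • e n) atTop (𝓝 z) := h1 z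
      refine le_of_tendsto' ((g.continuous.tendsto z).comp h5).norm fun B => ?_
      rw [Function.comp_apply, ← hP]
      exact ((P B).le_opNorm z).trans (by gcongr; exact hlow B)
    have h6 : -(‖g‖ * (2 - k)) ≤ RCLike.re (g x) := by
      have h7 := (abs_le.1 ((RCLike.abs_re_le_norm (g x)).trans (g.le_opNorm x))).1
      have h8 : ‖g‖ * ‖x‖ ≤ ‖g‖ * (2 - k) := by gcongr
      linarith
    linarith
  · rw [max_eq_right (by linarith), norm_le_zero_iff] at hx
    subst hx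
    exact zero_scd_of_embed he.1 (ContinuousLinearMap.id 𝕜 X) one_pos (by simp)

theorem sum_abs_le (s : Finset ℕ) (t : ℕ → ℝ) {C : ℝ} (h : ∀ A : Finset ℕ, |∑ n ∈ A, t n| ≤ C) :
    ∑ n ∈ s, |t n| ≤ 2 * C := by
  rw [← Finset.sum_filter_add_sum_filter_not s fun n => 0 ≤ t n]
  have h1 : ∑ n ∈ s with 0 ≤ t n, |t n| = ∑ n ∈ s with 0 ≤ t n, t n :=
    Finset.sum_congr rfl fun n hn => abs_of_nonneg (Finset.mem_filter.1 hn).2
  have h2 : ∑ n ∈ s with ¬ 0 ≤ t n, |t n| = -∑ n ∈ s with ¬ 0 ≤ t n, t n := by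
    rw [← Finset.sum_neg_distrib]
    exact Finset.sum_congr rfl fun n hn => abs_of_neg (not_le.1 (Finset.mem_filter.1 hn).2)
  rw [h1, h2]
  linarith [(abs_le.1 (h (s.filter fun n => 0 ≤ t n))).2,
    (abs_le.1 (h (s.filter fun n => ¬ 0 ≤ t n))).1]

/-- Every unconditional basis of a Banach space is `k`-unconditional for some `k ≥ 1`. -/
theorem exists_const [CompleteSpace X] {e : ℕ → X} (he : IsUncondBasis 𝕜 e) :
    ∃ k, 1 ≤ k ∧ IsKUncondBasis 𝕜 k e := by
  obtain ⟨c, K, h1, h2⟩ := exists_coord' e he.hasSum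
  refine ⟨1 + 4 * |K|, by linarith [abs_nonneg K], he, fun a θ x y hθ ha hy => ?_⟩
  have hac : a = fun n => c n x := (he.1 x).unique ha (h1 x).tendsto_sum_nat
  subst hac
  refine le_of_tendsto' hy.norm fun N => ?_
  obtain ⟨φ, hφ, hz⟩ := exists_dual_vector'' 𝕜 (∑ n ∈ Finset.range N, (θ n * c n x) • e n)
  have hA : ∀ A : Finset ℕ, ‖∑ n ∈ A, φ (c n x • e n)‖ ≤ |K| * ‖x‖ := fun A => by
    rw [← map_sum]
    refine (φ.le_opNorm _).trans ((mul_le_of_le_one_left (norm_nonneg _) hφ).trans ?_)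
    exact (h2 A x).trans (mul_le_mul_of_nonneg_right (le_abs_self K) (norm_nonneg x))
  have hre := sum_abs_le (Finset.range N) (fun n => RCLike.re (φ (c n x • e n)))
    fun A => by rw [← map_sum]; exact (RCLike.abs_re_le_norm _).trans (hA A)
  have him := sum_abs_le (Finset.range N) (fun n => RCLike.im (φ (c n x • e n)))
    fun A => by rw [← map_sum]; exact (RCLike.abs_im_le_norm _).trans (hA A)
  have h3 : ‖φ (∑ n ∈ Finset.range N, (θ n * c n x) • e n)‖ ≤ ∑ n ∈ Finset.range N,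
      (|RCLike.re (φ (c n x • e n))| + |RCLike.im (φ (c n x • e n))|) := by
    rw [map_sum]
    refine (norm_sum_le _ _).trans (Finset.sum_le_sum fun n _ => ?_)
    rw [mul_smul, map_smul, norm_smul]
    refine (mul_le_of_le_one_left (norm_nonneg _) (hθ n)).trans ?_
    conv_lhs => rw [← RCLike.re_add_im (φ (c n x • e n))]
    refine (norm_add_le _ _).trans (add_le_add (le_of_eq (RCLike.norm_ofReal _)) ?_)
    rw [norm_mul, RCLike.norm_ofReal]
    refine mul_le_of_le_one_right (abs_nonneg _) ?_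
    rcases eq_or_ne (RCLike.I : 𝕜) 0 with h | h
    · rw [h, norm_zero]; exact zero_le_one
    · exact (RCLike.norm_I_of_ne_zero h).le
  rw [hz, RCLike.norm_ofReal, abs_norm, Finset.sum_add_distrib] at h3
  nlinarith [norm_nonneg x]

end SR

end Pool.Agent.Lib.MP_8b3f09_an
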