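import Pool.Agent.Lib.MP_8b3f09_an_SR.Lower

/-!
The norming family and the Banach space it generates.
-/

set_option autoImplicit false

namespace Pool.Agent.Lib.MP_8b3f09_an.SR

open Filter Topology

theorem exists_enc : ∃ f : (ℕ →₀ ℚ) × ℕ → ℕ, Function.Injective f :=
  exists_injective_nat _

/-- a coding of the private successors of rational weights -/
noncomputable def enc : (ℕ →₀ ℚ) × ℕ → ℕ := exists_enc.choose

theorem enc_inj : Function.Injective enc := exists_enc.choose_spec

/-- the norming family of weights -/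
inductive WW (k : ℝ) : (ℕ → ℝ) → Prop
  | single (n : ℕ) : WW k (Pi.single n 1)
  | ext (w : ℕ →₀ ℚ) (j : ℕ) : WW k (fun n => (w n : ℝ)) →
      WW k (Function.update (fun n => (w n : ℝ)) (enc (w, j)) 1)
  | shrink (w θ : ℕ → ℝ) : WW k w → (∀ n, 0 ≤ θ n ∧ θ n ≤ 1) → WW k (fun n => θ n * w n)
  | flip (w θ : ℕ → ℝ) : WW k w → (∀ n, |θ n| ≤ 1) → WW k (fun n => θ n * w n / k)

variable {k : ℝ}

theorem flip_le (hk : 1 ≤ k) {θ a : ℝ} (h : |θ| ≤ 1) : k * |θ * a / k| ≤ |a| := by
  have hk0 : 0 < k := by linarith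
  rw [abs_div, abs_of_pos hk0, mul_div_cancel₀ _ hk0.ne', abs_mul]
  exact mul_le_of_le_one_left (abs_nonneg a) h

theorem shrink_le {θ a : ℝ} (h : 0 ≤ θ ∧ θ ≤ 1) : |θ * a| ≤ |a| := by
  rw [abs_mul, abs_of_nonneg h.1]
  exact mul_le_of_le_one_left (abs_nonneg a) h.2

theorem le_k_mul (hk : 1 ≤ k) (a : ℝ) : |a| ≤ k * |a| :=
  le_mul_of_one_le_left (abs_nonneg a) hk

theorem WW.abs_le (hk : 1 ≤ k) {w : ℕ → ℝ} (h : WW k w) (n : ℕ) : |w n| ≤ 1 := by
  induction h with
  | single m => by_cases h : n = m <;> simp [h]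
  | ext w j _ ih => by_cases h : n = enc (w, j) <;> simp [h, ih]
  | shrink w θ _ hθ ih => exact (shrink_le (hθ n)).trans ih
  | flip w θ _ hθ ih => exact ((le_k_mul hk _).trans (flip_le hk (hθ n))).trans ih

/-- a member of the family sees at most one private successor of a given weight -/
theorem WW.sib {w : ℕ → ℝ} (h : WW k w) (v : ℕ →₀ ℚ) {i j : ℕ} (hi : v (enc (v, i)) = 0)
    (hj : v (enc (v, j)) = 0) (h1 : w (enc (v, i)) ≠ 0) (h2 : w (enc (v, j)) ≠ 0) : i = j := by
  induction h with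
  | single m =>
    have a1 : enc (v, i) = m := by
      by_contra hc
      exact h1 (Pi.single_eq_of_ne hc _)
    have a2 : enc (v, j) = m := by
      by_contra hc
      exact h2 (Pi.single_eq_of_ne hc _)
    exact (Prod.ext_iff.1 (enc_inj (a1.trans a2.symm))).2
  | ext w l _ ih =>
    by_cases a1 : enc (v, i) = enc (w, l) <;> by_cases a2 : enc (v, j) = enc (w, l)
    · exact (Prod.ext_iff.1 (enc_inj (a1.trans a2.symm))).2
    · have : v = w := (Prod.ext_iff.1 (enc_inj a1)).1
      subst this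
      rw [Function.update_of_ne a2, hj] at h2
      exact absurd Rat.cast_zero h2
    · have : v = w := (Prod.ext_iff.1 (enc_inj a2)).1
      subst this
      rw [Function.update_of_ne a1, hi] at h1
      exact absurd Rat.cast_zero h1
    · rw [Function.update_of_ne a1] at h1
      rw [Function.update_of_ne a2] at h2
      exact ih h1 h2
  | shrink w θ _ hθ ih => exact ih (right_ne_zero_of_mul h1) (right_ne_zero_of_mul h2)
  | flip w θ _ hθ ih =>
    exact ih (right_ne_zero_of_mul (div_ne_zero_iff.1 h1).1)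
      (right_ne_zero_of_mul (div_ne_zero_iff.1 h2).1)

/-- on a finite set with nothing built above the new node, every member of the family that sees
the new node is a multiple of the one step extension -/
theorem WW.deep (hk : 1 ≤ k) {w : ℕ → ℝ} (h : WW k w) (v : ℕ →₀ ℚ) (j : ℕ) (F : Finset ℕ)
    (hF : ∀ p : (ℕ →₀ ℚ) × ℕ, enc p ∈ F → p.1 (enc (v, j)) = 0) (hw : w (enc (v, j)) ≠ 0) :
    (∃ θ : ℕ → ℝ, (∀ n, 0 ≤ θ n ∧ θ n ≤ 1) ∧ ∀ n ∈ insert (enc (v, j)) F,
      w n = θ n * Function.update (fun n => (v n : ℝ)) (enc (v, j)) 1 n) ∨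
    ∀ n ∈ insert (enc (v, j)) F,
      k * |w n| ≤ |Function.update (fun n => (v n : ℝ)) (enc (v, j)) 1 n| := by
  induction h with
  | single m =>
    have a1 : enc (v, j) = m := by
      by_contra hc
      exact hw (Pi.single_eq_of_ne hc _)
    refine Or.inl ⟨Pi.single m 1, fun n => ?_, fun n _ => ?_⟩
    · by_cases h : n = m <;> simp [h]
    · by_cases h : n = m <;> simp [h, a1]
  | ext w l _ ih =>
    by_cases a1 : enc (v, j) = enc (w, l)
    · obtain ⟨rfl, rfl⟩ := Prod.ext_iff.1 (enc_inj a1)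
      exact Or.inl ⟨fun _ => 1, fun _ => ⟨zero_le_one, le_rfl⟩, fun n _ => (one_mul _).symm⟩
    · rw [Function.update_of_ne a1] at hw
      have a2 : ∀ n ∈ insert (enc (v, j)) F, n ≠ enc (w, l) := by
        intro n hn hc
        rcases Finset.mem_insert.1 hn with h | h
        · exact a1 (h.symm.trans hc)
        · have := hF (w, l) (hc ▸ h)
          exact hw (by rw [show w (enc (v, j)) = 0 from this, Rat.cast_zero])
      rcases ih hw with ⟨θ, h1, h2⟩ | h2
      · exact Or.inl ⟨θ, h1, fun n hn => by rw [Function.update_of_ne (a2 n hn)]; exact h2 n hn⟩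
      · exact Or.inr fun n hn => by rw [Function.update_of_ne (a2 n hn)]; exact h2 n hn
  | shrink w θ _ hθ ih =>
    rcases ih (right_ne_zero_of_mul hw) with ⟨η, h1, h2⟩ | h2
    · refine Or.inl ⟨fun n => θ n * η n, fun n => ⟨mul_nonneg (hθ n).1 (h1 n).1,
        mul_le_one₀ (hθ n).2 (h1 n).1 (h1 n).2⟩, fun n hn => ?_⟩
      beta_reduce
      rw [h2 n hn, mul_assoc]
    · refine Or.inr fun n hn => le_trans ?_ (h2 n hn)
      exact mul_le_mul_of_nonneg_left (shrink_le (hθ n)) (by linarith)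
  | flip w θ _ hθ ih =>
    refine Or.inr fun n hn => (flip_le hk (hθ n)).trans ?_
    rcases ih (right_ne_zero_of_mul (div_ne_zero_iff.1 hw).1) with ⟨η, h1, h2⟩ | h2
    · rw [h2 n hn]
      exact shrink_le (h1 n)
    · exact (le_k_mul hk _).trans (h2 n hn)

/-- a space normed by the family -/
structure Mod (k : ℝ) {X : Type} [NormedAddCommGroup X] [NormedSpace ℝ X] (e : ℕ → X)
    (ev : (ℕ → ℝ) → X →L[ℝ] ℝ) : Prop where
  ev_e : ∀ w, WW k w → ∀ n, ev w (e n) = w n
  le : ∀ w, WW k w → ∀ x, |ev w x| ≤ ‖x‖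
  norm_le : ∀ x r, 0 ≤ r → (∀ w, WW k w → |ev w x| ≤ r) → ‖x‖ ≤ r
  dense : Dense (Submodule.span ℝ (Set.range e) : Set X)

theorem exists_space (hk : 1 ≤ k) : ∃ (X : Type) (_ : NormedAddCommGroup X) (_ : NormedSpace ℝ X)
    (_ : CompleteSpace X) (e : ℕ → X) (ev : (ℕ → ℝ) → X →L[ℝ] ℝ), Mod k e ev := by
  classical
  let E := lp (fun _ : {w // WW k w} => ℝ) ⊤
  let ee : ℕ → E := fun n => ⟨fun w => w.1 n,
    memℓp_infty ⟨1, by rintro _ ⟨w, rfl⟩; exact w.2.abs_le hk n⟩⟩
  let S : Submodule ℝ E := (Submodule.span ℝ (Set.range ee)).topologicalClosure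
  let e : ℕ → S := fun n =>
    ⟨ee n, Submodule.le_topologicalClosure _ (Submodule.subset_span ⟨n, rfl⟩)⟩
  let ev0 : {w // WW k w} → S →L[ℝ] ℝ := fun w => LinearMap.mkContinuous
    { toFun := fun x => (x.1 : {w // WW k w} → ℝ) w
      map_add' := fun _ _ => rfl
      map_smul' := fun _ _ => rfl } 1 (fun x => by
      rw [one_mul]
      exact lp.norm_apply_le_norm (by simp) x.1 w)
  refine ⟨S, inferInstance, inferInstance, Submodule.topologicalClosure.completeSpace _, e,
    fun w => if h : WW k w then ev0 ⟨w, h⟩ else 0, fun w h n => ?_, fun w h x => ?_,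
    fun x r hr h => ?_, ?_⟩
  · rw [dif_pos h]; rfl
  · rw [dif_pos h]
    exact lp.norm_apply_le_norm (by simp) x.1 ⟨w, h⟩
  · refine lp.norm_le_of_forall_le hr (f := x.1) fun w => ?_
    have := h w.1 w.2
    rw [dif_pos w.2] at this
    exact this
  · rw [Subtype.dense_iff]
    have h1 : (Subtype.val '' (Submodule.span ℝ (Set.range e) : Set S) : Set E)
        = (Submodule.span ℝ (Set.range ee) : Set E) := by
      have := Submodule.map_span S.subtype (Set.range e)
      rw [← Set.range_comp] at this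
      exact congrArg (fun T : Submodule ℝ E => (T : Set E)) this
    exact fun x hx => closure_mono h1.symm.subset hx

end Pool.Agent.Lib.MP_8b3f09_an.SR
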