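import Pool.Agent.Lib.MP_8b3f09_an_SR.Basis

/-!
In the space normed by the family every SCD point of the unit ball has norm at most
`max (2 - k) 0`.
-/

set_option autoImplicit false

namespace Pool.Agent.Lib.MP_8b3f09_an.SR

open Filter Topology

variable {k : ℝ} {X : Type} [NormedAddCommGroup X] [NormedSpace ℝ X] {e : ℕ → X}
  {ev : (ℕ → ℝ) → X →L[ℝ] ℝ}

/-- private successors tend weakly to zero -/
theorem Mod.small_sib (M : Mod k e ev) (hk : 1 ≤ k) (v : ℕ →₀ ℚ) (G : Finset ℕ) (f : X →L[ℝ] ℝ)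
    {ε : ℝ} (hε : 0 < ε) : ∃ j, enc (v, j) ∉ G ∧ |f (e (enc (v, j)))| ≤ ε := by
  classical
  by_contra hc
  push Not at hc
  have hinj : Function.Injective fun j : ℕ => enc (v, j) := fun i j h =>
    (Prod.ext_iff.1 (enc_inj h)).2
  have hfin : {j : ℕ | enc (v, j) ∈ G ∪ v.support}.Finite :=
    (G ∪ v.support).finite_toSet.preimage hinj.injOn
  obtain ⟨N, hN⟩ := exists_nat_gt (‖f‖ / ε)
  obtain ⟨s, hs, hcard⟩ := hfin.infinite_compl.exists_subset_card_eq N
  have hs' : ∀ j ∈ s, enc (v, j) ∉ G ∧ v (enc (v, j)) = 0 := by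
    intro j hj
    have : enc (v, j) ∉ G ∪ v.support := hs hj
    rw [Finset.mem_union, not_or, Finsupp.notMem_support_iff] at this
    exact this
  let σ : ℕ → ℝ := fun j => if 0 ≤ f (e (enc (v, j))) then 1 else -1
  have hσ : ∀ j, |σ j| = 1 := fun j => by
    simp only [σ]
    split_ifs <;> simp
  have hz : ‖∑ j ∈ s, σ j • e (enc (v, j))‖ ≤ 1 := by
    refine M.norm_le _ _ zero_le_one fun w h => ?_
    rw [map_sum]
    simp only [map_smul, M.ev_e w h, smul_eq_mul]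
    by_cases h0 : ∃ i ∈ s, w (enc (v, i)) ≠ 0
    · obtain ⟨i, hi, hw⟩ := h0
      rw [Finset.sum_eq_single_of_mem i hi, abs_mul, hσ, one_mul]
      · exact h.abs_le hk _
      · intro j hj hji
        have : w (enc (v, j)) = 0 := by
          by_contra h1
          exact hji (h.sib v (hs' j hj).2 (hs' i hi).2 h1 hw)
        rw [this, mul_zero]
    · push Not at h0
      rw [Finset.sum_eq_zero fun j hj => by rw [h0 j hj, mul_zero]]
      simp
  have h1 : (N : ℝ) * ε ≤ f (∑ j ∈ s, σ j • e (enc (v, j))) := by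
    rw [map_sum, ← hcard, ← nsmul_eq_mul, ← Finset.sum_const]
    refine Finset.sum_le_sum fun j hj => ?_
    have h2 := hc j (hs' j hj).1
    rw [map_smul, smul_eq_mul]
    simp only [σ]
    split_ifs with h3
    · rw [abs_of_nonneg h3] at h2
      linarith
    · rw [abs_of_neg (not_le.1 h3)] at h2
      linarith
  have h2 := (le_abs_self _).trans (f.unit_le_opNorm _ hz)
  rw [div_lt_iff₀ hε] at hN
  linarith

theorem abs_shrink_sum (s : Finset ℕ) {θ : ℕ → ℝ} (hθ : ∀ n, 0 ≤ θ n ∧ θ n ≤ 1) (z : ℕ → ℝ) :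
    2 * |∑ n ∈ s, θ n * z n| ≤ |∑ n ∈ s, z n| + ∑ n ∈ s, |z n| := by
  have h1 : 2 * ∑ n ∈ s, θ n * z n = ∑ n ∈ s, z n + ∑ n ∈ s, (2 * θ n - 1) * z n := by
    rw [Finset.mul_sum, ← Finset.sum_add_distrib]
    exact Finset.sum_congr rfl fun n _ => by ring
  have h2 : |∑ n ∈ s, (2 * θ n - 1) * z n| ≤ ∑ n ∈ s, |z n| := by
    refine (Finset.abs_sum_le_sum_abs _ _).trans (Finset.sum_le_sum fun n _ => ?_)
    rw [abs_mul]
    exact mul_le_of_le_one_left (abs_nonneg _)
      (abs_le.2 ⟨by linarith [(hθ n).1], by linarith [(hθ n).2]⟩)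
  calc 2 * |∑ n ∈ s, θ n * z n| = |2 * ∑ n ∈ s, θ n * z n| := by rw [abs_mul, abs_two]
    _ ≤ _ := by
      rw [h1]
      exact (abs_add_le _ _).trans (by linarith)

theorem exists_corr {Z A : ℝ} (h1 : |Z| + A ≤ 2) (h2 : A ≤ k) :
    ∃ c, |c + Z| + (|c| + A) ≤ 2 ∧ |c| + A ≤ k ∧ |c + Z| ≤ max (2 - k) 0 := by
  rcases le_total |Z| (k - A) with h | h
  · refine ⟨-Z, ?_, ?_, ?_⟩
    · simpa using h1
    · rw [abs_neg]; linarith
    · simp
  · rcases le_total 0 Z with hZ | hZ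
    · rw [abs_of_nonneg hZ] at h h1
      have e1 : |-(k - A) + Z| = -(k - A) + Z := abs_of_nonneg (by linarith)
      have e2 : |-(k - A)| = k - A := by rw [abs_neg, abs_of_nonneg (by linarith)]
      refine ⟨-(k - A), ?_, ?_, ?_⟩
      · rw [e1, e2]; linarith
      · rw [e2]; linarith
      · rw [e1]; exact le_max_of_le_left (by linarith)
    · rw [abs_of_nonpos hZ] at h h1
      have e1 : |(k - A) + Z| = -((k - A) + Z) := abs_of_nonpos (by linarith)
      have e2 : |k - A| = k - A := abs_of_nonneg (by linarith)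
      refine ⟨k - A, ?_, ?_, ?_⟩
      · rw [e1, e2]; linarith
      · rw [e2]; linarith
      · rw [e1]; exact le_max_of_le_left (by linarith)

theorem Mod.mass_le (M : Mod k e ev) (hk : 1 ≤ k) {w : ℕ → ℝ} (h : WW k w) (F : Finset ℕ)
    (a : ℕ → ℝ) (ha : ‖∑ n ∈ F, a n • e n‖ ≤ 1) :
    |∑ n ∈ F, a n * w n| + ∑ n ∈ F, |a n * w n| ≤ 2 ∧ ∑ n ∈ F, |a n * w n| ≤ k := by
  have hk0 : 0 < k := by linarith
  have h1 : ∀ σ : ℝ, |σ| = 1 → σ * ∑ n ∈ F, a n * w n + ∑ n ∈ F, |a n * w n| ≤ 2 := by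
    intro σ hσ
    have h2 := WW.shrink w (fun n => if 0 ≤ σ * (a n * w n) then 1 else 0) h
      (fun n => by split_ifs <;> simp)
    have h3 := (M.le _ h2 _).trans ha
    rw [M.ev_sum h2] at h3
    have h4 : σ * ∑ n ∈ F, a n * w n + ∑ n ∈ F, |a n * w n|
        = 2 * (σ * ∑ n ∈ F, a n * ((if 0 ≤ σ * (a n * w n) then 1 else 0) * w n)) := by
      rw [Finset.mul_sum, Finset.mul_sum, Finset.mul_sum, ← Finset.sum_add_distrib]
      refine Finset.sum_congr rfl fun n _ => ?_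
      have h5 : |a n * w n| = |σ * (a n * w n)| := by rw [abs_mul σ, hσ, one_mul]
      rw [h5]
      split_ifs with h6
      · rw [abs_of_nonneg h6]; ring
      · rw [abs_of_neg (not_le.1 h6)]; ring
    have h7 := le_abs_self
      (σ * ∑ n ∈ F, a n * ((if 0 ≤ σ * (a n * w n) then 1 else 0) * w n))
    rw [abs_mul, hσ, one_mul] at h7
    linarith
  constructor
  · have h2 := h1 1 abs_one
    have h3 := h1 (-1) (by simp)
    rcases abs_cases (∑ n ∈ F, a n * w n) with h4 | h4 <;> linarith [h4.1]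
  · have h2 := WW.flip w (fun n => if 0 ≤ a n * w n then 1 else -1) h
      (fun n => by split_ifs <;> simp)
    have h3 := (le_abs_self _).trans ((M.le _ h2 _).trans ha)
    rw [M.ev_sum h2] at h3
    have h4 : ∑ n ∈ F, |a n * w n|
        = k * ∑ n ∈ F, a n * ((if 0 ≤ a n * w n then 1 else -1) * w n / k) := by
      rw [Finset.mul_sum]
      refine Finset.sum_congr rfl fun n _ => ?_
      split_ifs with h6
      · rw [abs_of_nonneg h6]; field_simp
      · rw [abs_of_neg (not_le.1 h6)]; field_simp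
    rw [h4]
    exact mul_le_of_le_one_right hk0.le h3

theorem Mod.exists_fin_slice (M : Mod k e ev) (f : X →L[ℝ] ℝ) {α : ℝ} (hα : 0 < α) :
    ∃ (F : Finset ℕ) (a : ℕ → ℝ), ‖∑ n ∈ F, a n • e n‖ ≤ 1 ∧
      sSup ((fun z => RCLike.re (f z)) '' Metric.closedBall (0 : X) 1) - α
        < f (∑ n ∈ F, a n • e n) := by
  obtain ⟨_, ⟨x, hx, rfl⟩, h⟩ := exists_lt_of_lt_csSup
    (s := (fun z => RCLike.re (f z)) '' Metric.closedBall (0 : X) 1) ⟨_, 0, by simp, rfl⟩
    (sub_lt_self _ hα)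
  have h1 : Tendsto (fun A : Finset ℕ => ∑ n ∈ A, ev (Pi.single n 1) x • e n) atTop (𝓝 x) :=
    M.hasSum x
  obtain ⟨A, hA⟩ := (((f.continuous.tendsto x).comp h1).eventually (lt_mem_nhds h)).exists
  exact ⟨A, _, (M.proj_le A x).trans (by simpa using hx), hA⟩

/-- one step of the selection -/
theorem Mod.step (M : Mod k e ev) (hk : 1 ≤ k) (v : ℕ →₀ ℚ) (hv : WW k fun n => (v n : ℝ))
    (G : Finset ℕ) (f : X →L[ℝ] ℝ) {α : ℝ} (hα : 0 < α) :
    ∃ (v' : ℕ →₀ ℚ) (G' : Finset ℕ) (a : ℕ → ℝ), (WW k fun n => (v' n : ℝ)) ∧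
      (∀ n ∈ G, v' n = v n) ∧ G ⊆ G' ∧ ∃ s ⊆ G',
      ∑ n ∈ s, a n • e n ∈ slice (Metric.closedBall (0 : X) 1) f α ∧
      |∑ n ∈ s, a n * (v' n : ℝ)| ≤ max (2 - k) 0 := by
  classical
  have hk0 : 0 < k := by linarith
  obtain ⟨F, a, ha, hf⟩ := M.exists_fin_slice f hα
  obtain ⟨j, hj, hsm⟩ := M.small_sib hk v
    (G ∪ F ∪ F.biUnion fun n => (Function.invFun enc n).1.support) f
    (half_pos (sub_pos.2 hf))
  rw [Finset.mem_union, Finset.mem_union, not_or, not_or] at hj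
  obtain ⟨⟨hG, hF⟩, hB⟩ := hj
  have hdeep : ∀ p : (ℕ →₀ ℚ) × ℕ, enc p ∈ F → p.1 (enc (v, j)) = 0 := by
    intro p hp
    by_contra hc
    refine hB (Finset.mem_biUnion.2 ⟨enc p, hp, ?_⟩)
    rw [Function.leftInverse_invFun enc_inj p]
    exact Finsupp.mem_support_iff.2 hc
  obtain ⟨m1, m2⟩ := M.mass_le hk hv F a ha
  obtain ⟨c, c1, c2, c3⟩ := exists_corr m1 m2
  have hW := WW.ext v j hv
  have hdp := fun w (h : WW k w) => h.deep hk v j F hdeep
  generalize enc (v, j) = u at hG hF hsm hW hdp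
  have hcoe : (fun n => ((v.update u 1) n : ℝ)) = Function.update (fun n => (v n : ℝ)) u 1 := by
    funext n
    by_cases hn : n = u
    · simp [hn]
    · simp [hn]
  set g : ℕ → ℝ := Function.update (fun n => (v n : ℝ)) u 1 with hg
  have hsum : ∀ {B : Type} [AddCommMonoid B] (φ : ℝ → ℕ → B),
      ∑ n ∈ insert u F, φ (Function.update a u c n) n = φ c u + ∑ n ∈ F, φ (a n) n := by
    intro B _ φ
    rw [Finset.sum_insert hF, Function.update_self]
    exact congrArg _ (Finset.sum_congr rfl fun n hn => by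
      rw [Function.update_of_ne (ne_of_mem_of_not_mem hn hF)])
  have hgF : ∀ n ∈ F, g n = v n := fun n hn =>
    Function.update_of_ne (ne_of_mem_of_not_mem hn hF) _ _
  have hgu : g u = 1 := Function.update_self ..
  have s1 : ∑ n ∈ insert u F, Function.update a u c n * g n = c + ∑ n ∈ F, a n * (v n : ℝ) := by
    rw [hsum fun t n => t * g n, hgu, mul_one]
    exact congrArg _ (Finset.sum_congr rfl fun n hn => by rw [hgF n hn])
  have s2 : ∑ n ∈ insert u F, |Function.update a u c n * g n|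
      = |c| + ∑ n ∈ F, |a n * (v n : ℝ)| := by
    rw [hsum fun t n => |t * g n|, hgu, mul_one]
    exact congrArg _ (Finset.sum_congr rfl fun n hn => by rw [hgF n hn])
  refine ⟨v.update u 1, insert u (G ∪ F), Function.update a u c, hcoe ▸ hW, fun n hn => ?_,
    Finset.subset_union_left.trans (Finset.subset_insert _ _), insert u F,
    Finset.insert_subset_insert _ Finset.subset_union_right, ⟨?_, ?_⟩, ?_⟩
  · have : n ≠ u := ne_of_mem_of_not_mem hn hG
    simp [this]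
  · rw [mem_closedBall_zero_iff]
    refine M.norm_le _ _ zero_le_one fun w h => ?_
    rw [M.ev_sum h]
    by_cases hw : w u = 0
    · rw [hsum fun t n => t * w n, hw, mul_zero, zero_add, ← M.ev_sum h]
      exact (M.le w h _).trans ha
    rcases hdp w h hw with ⟨θ, h1, h2⟩ | h2
    · have h3 := abs_shrink_sum (insert u F) h1 fun n => Function.update a u c n * g n
      rw [s1, s2] at h3
      rw [Finset.sum_congr rfl fun n hn => show Function.update a u c n * w n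
        = θ n * (Function.update a u c n * g n) by rw [h2 n hn]; ring]
      linarith
    · refine le_of_mul_le_mul_left ?_ hk0
      rw [mul_one]
      refine le_trans ?_ (s2 ▸ c2)
      refine (mul_le_mul_of_nonneg_left (Finset.abs_sum_le_sum_abs _ _) hk0.le).trans ?_
      rw [Finset.mul_sum]
      refine Finset.sum_le_sum fun n hn => ?_
      rw [abs_mul, abs_mul, mul_left_comm]
      exact mul_le_mul_of_nonneg_left (h2 n hn) (abs_nonneg _)
  · rw [hsum fun t n => t • e n, RCLike.re_to_real, map_add, map_smul, smul_eq_mul]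
    have h0 : |c| ≤ 1 := by
      have h5 := Finset.abs_sum_le_sum_abs (fun n => a n * (v n : ℝ)) F
      have h6 := abs_sub (c + ∑ n ∈ F, a n * (v n : ℝ)) (∑ n ∈ F, a n * (v n : ℝ))
      rw [add_sub_cancel_right] at h6
      linarith
    have h2 : |c * f (e u)| ≤ |f (e u)| := by
      rw [abs_mul]
      exact mul_le_of_le_one_left (abs_nonneg _) h0
    have h3 := neg_abs_le (c * f (e u))
    linarith
  · have : ∀ n, ((v.update u 1) n : ℝ) = g n := congrFun hcoe
    simp only [this]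
    rw [s1]
    exact c3

/-- the selection: all points stay small under the functionals built along the way -/
theorem Mod.selection (M : Mod k e ev) (hk : 1 ≤ k) (v : ℕ →₀ ℚ) (hv : WW k fun n => (v n : ℝ))
    (G : Finset ℕ) (f : ℕ → X →L[ℝ] ℝ) {α : ℕ → ℝ} (hα : ∀ n, 0 < α n) :
    ∃ (y : ℕ → X) (w : ℕ → ℕ → ℝ),
      (∀ m, y m ∈ slice (Metric.closedBall (0 : X) 1) (f m) (α m)) ∧ (∀ m, WW k (w m)) ∧
      (∀ m, ∀ n ∈ G, w m n = v n) ∧ ∀ m, ∀ᶠ l in atTop, |ev (w l) (y m)| ≤ max (2 - k) 0 := by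
  choose V H a h1 h2 h3 s h4 h5 h6 using
    fun (p : {v : ℕ →₀ ℚ // WW k fun n => (v n : ℝ)} × Finset ℕ) (m : ℕ) =>
      M.step hk p.1.1 p.1.2 p.2 (f m) (hα m)
  let q : ℕ → {v : ℕ →₀ ℚ // WW k fun n => (v n : ℝ)} × Finset ℕ := fun m =>
    Nat.rec (⟨v, hv⟩, G) (fun m p => (⟨V p m, h1 p m⟩, H p m)) m
  have hq : ∀ m l, m ≤ l → (q m).2 ⊆ (q l).2 ∧ ∀ n ∈ (q m).2, (q l).1.1 n = (q m).1.1 n := by
    intro m l hml
    induction l, hml using Nat.le_induction with
    | base => exact ⟨le_rfl, fun _ _ => rfl⟩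
    | succ l _ ih =>
      exact ⟨ih.1.trans (h3 (q l) l), fun n hn => (h2 (q l) l n (ih.1 hn)).trans (ih.2 n hn)⟩
  refine ⟨fun m => ∑ n ∈ s (q m) m, a (q m) m n • e n, fun m n => ((q m).1.1 n : ℝ),
    fun m => h5 (q m) m, fun m => (q m).1.2,
    fun m n hn => congrArg _ ((hq 0 m (Nat.zero_le m)).2 n hn), fun m => ?_⟩
  filter_upwards [eventually_ge_atTop (m + 1)] with l hl
  rw [M.ev_sum (q l).1.2]
  refine le_trans (le_of_eq (congrArg _ (Finset.sum_congr rfl fun n hn => ?_))) (h6 (q m) m)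
  rw [(hq (m + 1) l hl).2 n (h4 (q m) m hn)]

theorem exists_rat_shrink (t : ℝ) {η : ℝ} (hη : 0 < η) :
    ∃ (r : ℚ) (θ : ℝ), (0 ≤ θ ∧ θ ≤ 1) ∧ (r : ℝ) = θ * t ∧ |(r : ℝ) - t| ≤ η := by
  rcases lt_trichotomy t 0 with h | h | h
  · obtain ⟨r, h1, h2⟩ := exists_rat_btwn (show t < min 0 (t + η) from lt_min h (by linarith))
    rw [lt_min_iff] at h2
    refine ⟨r, r / t, ⟨div_nonneg_of_nonpos h2.1.le h.le, (div_le_one_of_neg h).2 h1.le⟩,
      (div_mul_cancel₀ _ h.ne).symm, abs_le.2 ⟨by linarith, by linarith [h2.2]⟩⟩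
  · exact ⟨0, 0, ⟨le_rfl, zero_le_one⟩, by simp, by simp [h, hη.le]⟩
  · obtain ⟨r, h1, h2⟩ := exists_rat_btwn (show max 0 (t - η) < t from max_lt h (by linarith))
    rw [max_lt_iff] at h1
    refine ⟨r, r / t, ⟨div_nonneg h1.1.le h.le, (div_le_one h).2 h2.le⟩,
      (div_mul_cancel₀ _ h.ne').symm, abs_le.2 ⟨by linarith [h1.2], by linarith⟩⟩

theorem exists_rat_member {w : ℕ → ℝ} (h : WW k w) (A : Finset ℕ) (a : ℕ → ℝ) {ε : ℝ}
    (hε : 0 < ε) : ∃ v : ℕ →₀ ℚ, (WW k fun n => (v n : ℝ)) ∧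
      |∑ n ∈ A, a n * (v n : ℝ) - ∑ n ∈ A, a n * w n| ≤ ε := by
  have h0 : 0 < 1 + ∑ n ∈ A, |a n| := by positivity
  choose r θ h1 h2 h3 using fun n => exists_rat_shrink (w n) (div_pos hε h0)
  refine ⟨Finsupp.onFinset A (fun n => if n ∈ A then r n else 0) (fun n hn => by
    by_contra hc
    exact hn (if_neg hc)), ?_, ?_⟩
  · have h4 := WW.shrink w (fun n => if n ∈ A then θ n else 0) h (fun n => by
      split_ifs
      · exact h1 n
      · simp)
    refine Eq.mp (congrArg _ (funext fun n => ?_)) h4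
    rw [Finsupp.onFinset_apply]
    split_ifs
    · exact (h2 n).symm
    · simp
  · rw [← Finset.sum_sub_distrib]
    refine (Finset.abs_sum_le_sum_abs _ _).trans ?_
    calc _ ≤ ∑ n ∈ A, |a n| * (ε / (1 + ∑ n ∈ A, |a n|)) := by
          refine Finset.sum_le_sum fun n hn => ?_
          rw [Finsupp.onFinset_apply, if_pos hn, ← mul_sub, abs_mul]
          exact mul_le_mul_of_nonneg_left (h3 n) (abs_nonneg _)
      _ ≤ ε := by
          rw [← Finset.sum_mul, ← mul_div_assoc, div_le_iff₀ h0]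
          nlinarith

theorem Mod.upper (M : Mod k e ev) (hk : 1 ≤ k) {x : X}
    (hx : IsSCDPoint ℝ (Metric.closedBall (0 : X) 1) x) : ‖x‖ ≤ max (2 - k) 0 := by
  obtain ⟨-, f, α, hf, H⟩ := hx
  refine M.norm_le _ _ (le_max_right _ _) fun w h => le_of_forall_pos_le_add fun ε hε => ?_
  have h1 : Tendsto (fun A : Finset ℕ => ∑ n ∈ A, ev (Pi.single n 1) x • e n) atTop (𝓝 x) :=
    M.hasSum x
  obtain ⟨A, hA⟩ := (Metric.tendsto_nhds.1 h1 (ε / 4) (by positivity)).exists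
  obtain ⟨v, hv, hvw⟩ := exists_rat_member h A (fun n => ev (Pi.single n 1) x)
    (show 0 < ε / 4 by positivity)
  obtain ⟨y, g, y1, g1, g2, g3⟩ := M.selection hk v hv A f fun n => (hf n).2
  have hconv : Convex ℝ {z : X | ∀ᶠ l in atTop, |ev (g l) z| ≤ max (2 - k) 0} := by
    intro z hz z' hz' s t hs ht hst
    filter_upwards [hz, hz'] with l a1 a2
    rw [map_add, map_smul, map_smul, smul_eq_mul, smul_eq_mul]
    refine (abs_add_le _ _).trans ?_
    rw [abs_mul, abs_mul, abs_of_nonneg hs, abs_of_nonneg ht]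
    calc _ ≤ s * max (2 - k) 0 + t * max (2 - k) 0 := by gcongr
      _ = _ := by rw [← add_mul, hst, one_mul]
  obtain ⟨z, hz, hxz⟩ := Metric.mem_closure_iff.1 (H y y1) (ε / 4) (by positivity)
  obtain ⟨l, hl⟩ := (convexHull_min (by rintro _ ⟨m, rfl⟩; exact g3 m) hconv hz).exists
  rw [dist_eq_norm] at hA hxz
  have b1 := (M.le _ (g1 l) _).trans hxz.le
  have b2 := (M.le _ (g1 l) _).trans hA.le
  have b3 := (M.le _ h _).trans hA.le
  rw [map_sub] at b1 b2 b3
  rw [M.ev_sum (g1 l), Finset.sum_congr rfl fun n hn => by rw [g2 l n hn]] at b2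
  rw [M.ev_sum h] at b3
  rw [abs_le] at b1 b2 b3 hvw hl ⊢
  constructor <;> linarith [b1.1, b1.2, b2.1, b2.2, b3.1, b3.2, hvw.1, hvw.2, hl.1, hl.2]

theorem exists_sharp (hk : 1 ≤ k) : ∃ (X : Type) (_ : NormedAddCommGroup X) (_ : NormedSpace ℝ X)
    (_ : CompleteSpace X) (e : ℕ → X), IsKUncondBasis ℝ k e ∧
      {x | IsSCDPoint ℝ (Metric.closedBall (0 : X) 1) x} = Metric.closedBall 0 (max (2 - k) 0) := by
  obtain ⟨X, _, _, _, e, ev, M⟩ := exists_space hk
  refine ⟨X, _, _, inferInstance, e, M.basis hk, Set.ext fun x => ?_⟩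
  rw [mem_closedBall_zero_iff]
  exact ⟨M.upper hk, lower hk (M.basis hk)⟩

end Pool.Agent.Lib.MP_8b3f09_an.SR
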